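import Mathlib
import Pool.Agent.Lib.MP_c6cae0_co.PB.U4

section

/-!
MP_c6cae0_co, 4A with codimension `O(L^2 log^2 L)`: the moment bound for the empirical mean (Hoeffding).
-/

set_option autoImplicit false

namespace PH

open Finset

/-- one variable -/
theorem mgf_one {ι : Type*} (A : Finset ι) (Y : ι → ℝ) (h1 : ∀ a ∈ A, |Y a| ≤ 1) (h0 : ∑ a ∈ A, Y a = 0) (l : ℝ) :
    ∑ a ∈ A, Real.exp (l * Y a) ≤ A.card * Real.exp (l ^ 2 / 2) := by
  have key : ∀ a ∈ A, Real.exp (l * Y a) ≤ Real.cosh l + Y a * Real.sinh l := by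
    intro a ha
    have hy := abs_le.1 (h1 a ha)
    have hc := convexOn_exp.2 (Set.mem_univ l) (Set.mem_univ (-l))
      (show 0 ≤ (1 + Y a) / 2 by linarith [hy.1]) (show 0 ≤ (1 - Y a) / 2 by linarith [hy.2])
      (by ring)
    simp only [smul_eq_mul] at hc
    have e1 : (1 + Y a) / 2 * l + (1 - Y a) / 2 * -l = l * Y a := by ring
    rw [e1] at hc
    refine hc.trans (le_of_eq ?_)
    rw [Real.cosh_eq, Real.sinh_eq]
    ring
  calc ∑ a ∈ A, Real.exp (l * Y a) ≤ ∑ a ∈ A, (Real.cosh l + Y a * Real.sinh l) := sum_le_sum key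
    _ = A.card * Real.cosh l := by
        rw [sum_add_distrib, ← sum_mul, h0, sum_const, nsmul_eq_mul, zero_mul, add_zero]
    _ ≤ A.card * Real.exp (l ^ 2 / 2) :=
        mul_le_mul_of_nonneg_left (Real.cosh_le_exp_half_sq l) (Nat.cast_nonneg _)

/-- `m` variables -/
theorem mgf_many {ι : Type*} [DecidableEq ι] (A : Finset ι) (Y : ι → ℝ) (h1 : ∀ a ∈ A, |Y a| ≤ 1)
    (h0 : ∑ a ∈ A, Y a = 0) (l : ℝ) (m : ℕ) :
    ∑ a ∈ Fintype.piFinset (fun _ : Fin m => A), Real.exp (l * ∑ i, Y (a i)) ≤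
      (A.card : ℝ) ^ m * Real.exp (m * (l ^ 2 / 2)) := by
  have e : ∑ a ∈ Fintype.piFinset (fun _ : Fin m => A), Real.exp (l * ∑ i, Y (a i)) =
      (∑ a ∈ A, Real.exp (l * Y a)) ^ m := by
    have := Finset.prod_univ_sum (fun _ : Fin m => A) (fun _ a => Real.exp (l * Y a))
    rw [prod_const, card_univ, Fintype.card_fin] at this
    rw [this]
    refine sum_congr rfl fun a _ => ?_
    rw [← Real.exp_sum, mul_sum]
  rw [e, Real.exp_nat_mul, ← mul_pow]
  exact pow_le_pow_left₀ (sum_nonneg fun _ _ => (Real.exp_pos _).le) (mgf_one A Y h1 h0 l) m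

/-- the moment bound -/
theorem moment {ι : Type*} [DecidableEq ι] (A : Finset ι) (Y : ι → ℝ) (h1 : ∀ a ∈ A, |Y a| ≤ 1)
    (h0 : ∑ a ∈ A, Y a = 0) {m r : ℕ} (hm : 0 < m) (hr : 0 < r) :
    ∑ a ∈ Fintype.piFinset (fun _ : Fin m => A), |(∑ i, Y (a i)) / m| ^ (2 * r) ≤
      (A.card : ℝ) ^ m * (2 * (6 * r / m) ^ r) := by
  have hm0 : (0 : ℝ) < m := Nat.cast_pos.2 hm
  have hr0 : (0 : ℝ) < r := Nat.cast_pos.2 hr
  obtain ⟨l, hl⟩ : ∃ l, l = Real.sqrt (2 * r / m) := ⟨_, rfl⟩
  have hl0 : 0 < l := by rw [hl]; exact Real.sqrt_pos.2 (by positivity)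
  have hl2 : l ^ 2 = 2 * r / m := by rw [hl]; exact Real.sq_sqrt (by positivity)
  have h1' : ∀ a ∈ A, |(fun a => - Y a) a| ≤ 1 := fun a ha => by simpa using h1 a ha
  have h0' : ∑ a ∈ A, (fun a => - Y a) a = 0 := by simp [h0]
  have E1 := mgf_many A Y h1 h0 l m
  have E2 := mgf_many A (fun a => - Y a) h1' h0' l m
  have hexp : Real.exp (m * (l ^ 2 / 2)) = Real.exp 1 ^ r := by
    rw [← Real.exp_nat_mul, hl2]; congr 1; field_simp
  -- pointwise
  have pt : ∀ a : Fin m → ι, |(∑ i, Y (a i)) / m| ^ (2 * r) ≤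
      ((2 * r : ℕ).factorial : ℝ) / ((m : ℝ) * l) ^ (2 * r) *
        (Real.exp (l * ∑ i, Y (a i)) + Real.exp (l * ∑ i, - Y (a i))) := by
    intro a
    obtain ⟨s, hs⟩ : ∃ s, s = ∑ i, Y (a i) := ⟨_, rfl⟩
    rw [sum_neg_distrib, ← hs]
    have p1 := Real.pow_div_factorial_le_exp (l * |s|) (by positivity) (2 * r)
    have p2 : Real.exp (l * |s|) ≤ Real.exp (l * s) + Real.exp (l * -s) := by
      rcases abs_cases s with ⟨h, -⟩ | ⟨h, -⟩
      · rw [h]; linarith [Real.exp_pos (l * -s)]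
      · rw [h]; linarith [Real.exp_pos (l * s)]
    have p3 := p1.trans p2
    rw [div_le_iff₀ (by positivity)] at p3
    rw [abs_div, abs_of_pos hm0, div_pow, mul_pow]
    rw [mul_pow] at p3
    have hmp : (0 : ℝ) < (m : ℝ) ^ (2 * r) := by positivity
    have hlp : (0 : ℝ) < l ^ (2 * r) := by positivity
    rw [div_mul_eq_mul_div, div_le_div_iff₀ hmp (by positivity)]
    calc |s| ^ (2 * r) * ((m : ℝ) ^ (2 * r) * l ^ (2 * r)) = (m : ℝ) ^ (2 * r) * (l ^ (2 * r) * |s| ^ (2 * r)) := by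
          ring
      _ ≤ (m : ℝ) ^ (2 * r) * ((Real.exp (l * s) + Real.exp (l * -s)) * ((2 * r : ℕ).factorial : ℝ)) :=
          mul_le_mul_of_nonneg_left p3 hmp.le
      _ = _ := by ring
  calc ∑ a ∈ Fintype.piFinset (fun _ : Fin m => A), |(∑ i, Y (a i)) / m| ^ (2 * r)
      ≤ ∑ a ∈ Fintype.piFinset (fun _ : Fin m => A), ((2 * r : ℕ).factorial : ℝ) / ((m : ℝ) * l) ^ (2 * r) *
        (Real.exp (l * ∑ i, Y (a i)) + Real.exp (l * ∑ i, - Y (a i))) := sum_le_sum fun a _ => pt a
    _ ≤ ((2 * r : ℕ).factorial : ℝ) / ((m : ℝ) * l) ^ (2 * r) *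
        (2 * ((A.card : ℝ) ^ m * Real.exp 1 ^ r)) := by
        rw [← mul_sum, sum_add_distrib]
        rw [hexp] at E1 E2
        exact mul_le_mul_of_nonneg_left (by linarith) (by positivity)
    _ ≤ (A.card : ℝ) ^ m * (2 * (6 * r / m) ^ r) := by
        have f1 : ((2 * r : ℕ).factorial : ℝ) ≤ ((2 * r : ℝ) ^ 2) ^ r := by
          rw [← pow_mul]
          have := Nat.factorial_le_pow (2 * r)
          exact_mod_cast this
        have f2 : ((m : ℝ) * l) ^ (2 * r) = (2 * r * m) ^ r := by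
          rw [pow_mul, mul_pow, hl2]
          congr 1
          field_simp
        have f3 : ((2 * r : ℕ).factorial : ℝ) / ((m : ℝ) * l) ^ (2 * r) * Real.exp 1 ^ r ≤ (6 * r / m) ^ r := by
          rw [f2]
          calc ((2 * r : ℕ).factorial : ℝ) / (2 * r * m) ^ r * Real.exp 1 ^ r
              ≤ ((2 * r : ℝ) ^ 2) ^ r / (2 * r * m) ^ r * 3 ^ r := by
                have h3 : Real.exp 1 ≤ 3 := by
                  have := Real.exp_one_lt_d9
                  linarith
                gcongr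
            _ = (6 * r / m) ^ r := by
                rw [← div_pow, ← mul_pow]
                congr 1
                field_simp
                ring
        have hA : (0 : ℝ) ≤ (A.card : ℝ) ^ m := by positivity
        nlinarith [mul_le_mul_of_nonneg_left f3 hA]

end PH
end

section

/-!
MP_c6cae0_co, 4A with codimension `O(L^2 log^2 L)`: the set of almost periods (Croot and Sisask).
-/

set_option autoImplicit false

namespace PH

open Finset

noncomputable section

variable {G : Type} [AddCommGroup G] [Fintype G]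

/-- the `L^{2r}` norm (counting measure) -/
def nm (r : ℕ) (g : G → ℝ) : ℝ := (∑ x, |g x| ^ (2 * r)) ^ (1 / (2 * r : ℝ))

/-- average of `f` over the translates by `A` -/
def avA (A : Finset G) (f : G → ℝ) (x : G) : ℝ := (∑ a ∈ A, f (x + a)) / A.card

/-- empirical average -/
def avT {m : ℕ} (a : Fin m → G) (f : G → ℝ) (x : G) : ℝ := (∑ i, f (x + a i)) / m

omit [AddCommGroup G] in
theorem nm_nonneg (r : ℕ) (g : G → ℝ) : 0 ≤ nm r g :=
  Real.rpow_nonneg (sum_nonneg fun _ _ => by positivity) _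

omit [AddCommGroup G] in
theorem nm_add {r : ℕ} (hr : 0 < r) (g h : G → ℝ) : nm r (fun x => g x + h x) ≤ nm r g + nm r h := by
  have hr1 : (1 : ℝ) ≤ r := by exact_mod_cast hr
  have hp : (1 : ℝ) ≤ 2 * r := by linarith
  have := Real.Lp_add_le univ g h hp
  have e : ∀ k : G → ℝ, ∑ x, |k x| ^ (2 * r : ℝ) = ∑ x, |k x| ^ (2 * r) := by
    intro k
    refine sum_congr rfl fun x _ => ?_
    rw [← Real.rpow_natCast]
    push_cast
    rfl
  have e' : ∑ x, |g x + h x| ^ (2 * r : ℝ) = ∑ x, |g x + h x| ^ (2 * r) := e (fun x => g x + h x)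
  rw [e g, e h, e'] at this
  exact this

omit [AddCommGroup G] in
theorem nm_neg (r : ℕ) (g : G → ℝ) : nm r (fun x => - g x) = nm r g := by
  simp [nm, abs_neg]

theorem nm_shift (r : ℕ) (g : G → ℝ) (t : G) : nm r (fun x => g (x + t)) = nm r g := by
  unfold nm
  congr 1
  exact Fintype.sum_equiv (Equiv.addRight t) _ _ (fun x => rfl)

omit [AddCommGroup G] in
theorem nm_le_of {r : ℕ} (hr : 0 < r) {g : G → ℝ} {ε : ℝ} (hε : 0 ≤ ε)
    (h : ∑ x, |g x| ^ (2 * r) ≤ Fintype.card G * ε ^ (2 * r)) :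
    nm r g ≤ ε * (Fintype.card G : ℝ) ^ (1 / (2 * r : ℝ)) := by
  have hr1 : (0 : ℝ) < r := by exact_mod_cast hr
  unfold nm
  calc (∑ x, |g x| ^ (2 * r)) ^ (1 / (2 * r : ℝ))
      ≤ (Fintype.card G * ε ^ (2 * r)) ^ (1 / (2 * r : ℝ)) :=
        Real.rpow_le_rpow (sum_nonneg fun _ _ => by positivity) h (by positivity)
    _ = (Fintype.card G : ℝ) ^ (1 / (2 * r : ℝ)) * (ε ^ (2 * r)) ^ (1 / (2 * r : ℝ)) :=
        Real.mul_rpow (by positivity) (by positivity)
    _ = _ := by
        rw [← Real.rpow_natCast, ← Real.rpow_mul hε]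
        have : ((2 * r : ℕ) : ℝ) * (1 / (2 * r : ℝ)) = 1 := by
          push_cast
          field_simp
        rw [this, Real.rpow_one, mul_comm]

theorem avA_mem {A : Finset G} (hA : A.Nonempty) {f : G → ℝ} (hf : ∀ x, 0 ≤ f x ∧ f x ≤ 1) (x : G) :
    0 ≤ avA A f x ∧ avA A f x ≤ 1 := by
  have hc : (0 : ℝ) < A.card := Nat.cast_pos.2 hA.card_pos
  refine ⟨div_nonneg (sum_nonneg fun a _ => (hf _).1) hc.le, ?_⟩
  unfold avA
  rw [div_le_one hc]
  calc ∑ a ∈ A, f (x + a) ≤ ∑ a ∈ A, 1 := sum_le_sum fun a _ => (hf _).2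
    _ = A.card := by simp

/-- the total `2r`-th moment -/
theorem total {A : Finset G} (hA : A.Nonempty) {f : G → ℝ} (hf : ∀ x, 0 ≤ f x ∧ f x ≤ 1)
    {m r : ℕ} (hm : 0 < m) (hr : 0 < r) [DecidableEq G] :
    ∑ a ∈ Fintype.piFinset (fun _ : Fin m => A), ∑ x, |avT a f x - avA A f x| ^ (2 * r) ≤
      Fintype.card G * ((A.card : ℝ) ^ m * (2 * (6 * r / m) ^ r)) := by
  have hc : (0 : ℝ) < A.card := Nat.cast_pos.2 hA.card_pos
  have hm0 : (0 : ℝ) < m := Nat.cast_pos.2 hm
  rw [sum_comm]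
  calc ∑ x, ∑ a ∈ Fintype.piFinset (fun _ : Fin m => A), |avT a f x - avA A f x| ^ (2 * r)
      ≤ ∑ _x : G, ((A.card : ℝ) ^ m * (2 * (6 * r / m) ^ r)) := by
        refine sum_le_sum fun x _ => ?_
        have h1 : ∀ a ∈ A, |(fun a => f (x + a) - avA A f x) a| ≤ 1 := by
          intro a _
          have := avA_mem hA hf x
          have := hf (x + a)
          rw [abs_le]
          constructor <;> simp only <;> linarith
        have h0 : ∑ a ∈ A, (fun a => f (x + a) - avA A f x) a = 0 := by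
          simp only [sum_sub_distrib, sum_const, nsmul_eq_mul]
          unfold avA
          field_simp
          ring
        have := moment A (fun a => f (x + a) - avA A f x) h1 h0 hm hr
        refine le_trans (le_of_eq ?_) this
        refine sum_congr rfl fun a _ => ?_
        congr 2
        unfold avT
        simp only [sum_sub_distrib, sum_const, card_univ, Fintype.card_fin, nsmul_eq_mul]
        field_simp
    _ = _ := by simp

/-- at least half of the tuples are good -/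
theorem good_half {A : Finset G} (hA : A.Nonempty) {f : G → ℝ} (hf : ∀ x, 0 ≤ f x ∧ f x ≤ 1)
    {m r : ℕ} (hm : 0 < m) (hr : 0 < r) {ε : ℝ} (hε : 0 < ε) (hmε : 24 * r ≤ m * ε ^ 2) [DecidableEq G] :
    (A.card : ℝ) ^ m / 2 ≤ ((Fintype.piFinset (fun _ : Fin m => A)).filter
      (fun a => ∑ x, |avT a f x - avA A f x| ^ (2 * r) ≤ Fintype.card G * ε ^ (2 * r))).card := by
  have hm0 : (0 : ℝ) < m := Nat.cast_pos.2 hm
  have hr0 : (0 : ℝ) < r := Nat.cast_pos.2 hr
  have hG : (0 : ℝ) < Fintype.card G := Nat.cast_pos.2 Fintype.card_pos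
  set P := Fintype.piFinset (fun _ : Fin m => A) with hP
  set Q : (Fin m → G) → Prop := fun a => ∑ x, |avT a f x - avA A f x| ^ (2 * r) ≤ Fintype.card G * ε ^ (2 * r) with hQ
  have hcard : (P.card : ℝ) = (A.card : ℝ) ^ m := by
    rw [hP, Fintype.card_piFinset_const]
    push_cast
    rfl
  have hsplit : ((P.filter Q).card : ℝ) + ((P.filter (fun a => ¬ Q a)).card : ℝ) = P.card := by
    exact_mod_cast card_filter_add_card_filter_not (s := P) Q
  have hbad : ((P.filter (fun a => ¬ Q a)).card : ℝ) * (Fintype.card G * ε ^ (2 * r)) ≤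
      Fintype.card G * ((A.card : ℝ) ^ m * (2 * (6 * r / m) ^ r)) := by
    calc ((P.filter (fun a => ¬ Q a)).card : ℝ) * (Fintype.card G * ε ^ (2 * r))
        = ∑ a ∈ P.filter (fun a => ¬ Q a), (Fintype.card G * ε ^ (2 * r) : ℝ) := by
          rw [sum_const, nsmul_eq_mul]
      _ ≤ ∑ a ∈ P.filter (fun a => ¬ Q a), ∑ x, |avT a f x - avA A f x| ^ (2 * r) := by
          refine sum_le_sum fun a ha => ?_
          exact (not_le.1 (mem_filter.1 ha).2).le
      _ ≤ ∑ a ∈ P, ∑ x, |avT a f x - avA A f x| ^ (2 * r) :=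
          sum_le_sum_of_subset_of_nonneg (filter_subset _ _)
            (fun a _ _ => sum_nonneg fun x _ => by positivity)
      _ ≤ _ := total hA hf hm hr
  have h6 : (6 * r / m : ℝ) ^ r ≤ ε ^ (2 * r) / 4 := by
    have h1 : (6 * r / m : ℝ) ≤ ε ^ 2 / 4 := by
      rw [div_le_div_iff₀ hm0 (by norm_num)]
      nlinarith
    calc (6 * r / m : ℝ) ^ r ≤ (ε ^ 2 / 4) ^ r := pow_le_pow_left₀ (by positivity) h1 r
      _ = ε ^ (2 * r) / 4 ^ r := by rw [div_pow, pow_mul]
      _ ≤ ε ^ (2 * r) / 4 := by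
          apply div_le_div_of_nonneg_left (by positivity) (by norm_num)
          calc (4 : ℝ) = 4 ^ 1 := by norm_num
            _ ≤ 4 ^ r := pow_le_pow_right₀ (by norm_num) hr
  have hbad2 : ((P.filter (fun a => ¬ Q a)).card : ℝ) ≤ (A.card : ℝ) ^ m / 2 := by
    have hpos : (0 : ℝ) < Fintype.card G * ε ^ (2 * r) := by positivity
    have hAm : (0 : ℝ) ≤ (A.card : ℝ) ^ m := by positivity
    refine le_of_mul_le_mul_right (hbad.trans ?_) hpos
    calc (Fintype.card G : ℝ) * ((A.card : ℝ) ^ m * (2 * (6 * r / m) ^ r))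
        ≤ Fintype.card G * ((A.card : ℝ) ^ m * (2 * (ε ^ (2 * r) / 4))) := by gcongr
      _ = (A.card : ℝ) ^ m / 2 * (Fintype.card G * ε ^ (2 * r)) := by ring
  have := hsplit
  rw [hcard] at this
  linarith

/-- the set of almost periods -/
theorem periods (h2 : ∀ x : G, x + x = 0) {A : Finset G} (hA : A.Nonempty) {f : G → ℝ}
    (hf : ∀ x, 0 ≤ f x ∧ f x ≤ 1) {m r : ℕ} (hm : 0 < m) (hr : 0 < r) {ε : ℝ} (hε : 0 < ε)
    (hmε : 24 * r ≤ m * ε ^ 2) :
    ∃ T : Finset G, ((A.card : ℝ) / Fintype.card G) ^ m / 2 ≤ T.card / Fintype.card G ∧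
      ∀ t ∈ T, ∀ t' ∈ T, nm r (fun x => avA A f (x + (t + t')) - avA A f x) ≤
        2 * ε * (Fintype.card G : ℝ) ^ (1 / (2 * r : ℝ)) := by
  classical
  have hG : (0 : ℝ) < Fintype.card G := Nat.cast_pos.2 Fintype.card_pos
  set P := Fintype.piFinset (fun _ : Fin m => A) with hP
  set Q : (Fin m → G) → Prop := fun a => ∑ x, |avT a f x - avA A f x| ^ (2 * r) ≤ Fintype.card G * ε ^ (2 * r) with hQ
  have hgood := good_half hA hf hm hr hε hmε
  rw [← hP] at hgood
  change (A.card : ℝ) ^ m / 2 ≤ ((P.filter Q).card : ℝ) at hgood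
  set Tb : (Fin m → G) → Finset G := fun b => univ.filter (fun t => (fun i => b i + t) ∈ P.filter Q) with hTb
  have hsum : ∑ b : Fin m → G, (Tb b).card = Fintype.card G * (P.filter Q).card := by
    have h1 : ∀ b : Fin m → G, (Tb b).card = ∑ t : G, if (fun i => b i + t) ∈ P.filter Q then 1 else 0 := by
      intro b
      rw [hTb, card_filter]
    simp_rw [h1]
    rw [sum_comm]
    have h2 : ∀ t : G, (∑ b : Fin m → G, if (fun i => b i + t) ∈ P.filter Q then 1 else 0) = (P.filter Q).card := by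
      intro t
      have h5 : (∑ b : Fin m → G, if (fun i => b i + t) ∈ P.filter Q then 1 else 0) =
          ∑ b : Fin m → G, if b ∈ P.filter Q then 1 else 0 :=
        Fintype.sum_equiv (Equiv.addRight (fun _ : Fin m => t))
          (fun b => if (fun i => b i + t) ∈ P.filter Q then 1 else 0)
          (fun b => if b ∈ P.filter Q then 1 else 0) (fun b => rfl)
      rw [h5, ← card_filter]
      congr 1
      ext b
      simp
    simp_rw [h2]
    simp
  have hex : ∃ b : Fin m → G, (Fintype.card G : ℝ) * (P.filter Q).card ≤ (Fintype.card G : ℝ) ^ m * (Tb b).card := by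
    by_contra hcon
    push Not at hcon
    have h3 : ∑ b : Fin m → G, ((Fintype.card G : ℝ) ^ m * (Tb b).card) <
        ∑ _b : Fin m → G, ((Fintype.card G : ℝ) * (P.filter Q).card) :=
      sum_lt_sum_of_nonempty ⟨fun _ => 0, mem_univ _⟩ fun b _ => hcon b
    rw [← mul_sum, sum_const, card_univ, Fintype.card_pi, prod_const, card_univ, Fintype.card_fin,
      nsmul_eq_mul] at h3
    have h4 : (∑ b : Fin m → G, ((Tb b).card : ℝ)) = Fintype.card G * (P.filter Q).card := by
      exact_mod_cast hsum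
    rw [h4] at h3
    push_cast at h3
    exact lt_irrefl _ h3
  obtain ⟨b, hb⟩ := hex
  refine ⟨Tb b, ?_, ?_⟩
  · rw [div_pow, div_div, div_le_div_iff₀ (by positivity) hG]
    have : (A.card : ℝ) ^ m * Fintype.card G ≤ 2 * (Fintype.card G * (P.filter Q).card) := by
      nlinarith
    calc (A.card : ℝ) ^ m * Fintype.card G ≤ 2 * (Fintype.card G * (P.filter Q).card) := this
      _ ≤ 2 * ((Fintype.card G : ℝ) ^ m * (Tb b).card) := by linarith
      _ = _ := by ring
  · intro t ht t' ht'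
    have key : ∀ t ∈ Tb b, nm r (fun x => avT b f (x + t) - avA A f x) ≤
        ε * (Fintype.card G : ℝ) ^ (1 / (2 * r : ℝ)) := by
      intro t ht
      have h1 := (mem_filter.1 (mem_filter.1 ht).2).2
      refine nm_le_of hr hε.le ?_
      refine le_trans (le_of_eq ?_) h1
      refine sum_congr rfl fun x _ => ?_
      unfold avT
      congr 4
      refine sum_congr rfl fun i _ => ?_
      congr 1
      abel
    have k1 := key t ht
    have k2 := key t' ht'
    have e : (fun x => avA A f (x + (t + t')) - avA A f x) =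
        fun x => (avT b f (x + t') - avA A f x) + (fun x => - (fun x => avT b f (x + t) - avA A f x) x) (x + (t + t')) := by
      funext x
      have : x + (t + t') + t = x + t' := by
        calc x + (t + t') + t = x + t' + (t + t) := by abel
          _ = x + t' := by rw [h2, add_zero]
      simp only [this]
      ring
    rw [e]
    refine (nm_add hr _ _).trans ?_
    rw [nm_shift r (fun x => - (fun x => avT b f (x + t) - avA A f x) x) (t + t'), nm_neg]
    linarith

end

end PH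
end

section

/-!
MP_c6cae0_co, 4A with codimension `O(L^2 log^2 L)`: conclusion for groups.
-/

set_option autoImplicit false

namespace PH

open Finset
open scoped Pointwise Classical

noncomputable section

/-- choice of the number of summands -/
theorem num_k {C : ℝ} (hC : 0 ≤ C) : ∃ C1 : ℝ, 0 < C1 ∧ ∀ Z : ℝ, 2 ≤ Z → ∃ k : ℕ, 1 ≤ k ∧
    (k : ℝ) ≤ C1 * Real.log Z ∧ C * Real.log (2 + 1731 * (Z * k) ^ 2) ≤ k := by
  have hlog2 : 0.69 < Real.log 2 := by have := Real.log_two_gt_d9; linarith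
  refine ⟨28 * C + 93 * C ^ 2 + 1 + 2, by positivity, fun Z hZ => ?_⟩
  have hlZ : 0.69 < Real.log Z := hlog2.trans_le (Real.log_le_log (by norm_num) hZ)
  obtain ⟨C2, hC2⟩ : ∃ C2, C2 = 28 * C + 93 * C ^ 2 + 1 := ⟨_, rfl⟩
  have hC2' : 0 < C2 := by rw [hC2]; positivity
  rw [← hC2]
  obtain ⟨k, hk⟩ : ∃ k : ℕ, k = ⌈C2 * Real.log Z⌉₊ := ⟨_, rfl⟩
  have hk1 : C2 * Real.log Z ≤ k := by rw [hk]; exact Nat.le_ceil _
  have hk2 : (k : ℝ) < C2 * Real.log Z + 1 := by
    rw [hk]; exact Nat.ceil_lt_add_one (by positivity)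
  have hkpos : 0 < k := by
    have : (0 : ℝ) < k := lt_of_lt_of_le (by positivity) hk1
    exact_mod_cast this
  have hk0 : (1 : ℝ) ≤ k := by exact_mod_cast hkpos
  refine ⟨k, hkpos, ?_, ?_⟩
  · rw [add_mul]; linarith
  · have hs : Real.log k ≤ 2 * Real.sqrt k := by
      have h1 := Real.log_le_sub_one_of_pos (Real.sqrt_pos.2 (lt_of_lt_of_le one_pos hk0))
      rw [Real.log_sqrt (by linarith)] at h1
      linarith
    have hsq : Real.sqrt k ^ 2 = k := Real.sq_sqrt (by linarith)
    have h2 : Real.log (2 + 1731 * (Z * k) ^ 2) ≤ 8 + 2 * Real.log Z + 4 * Real.sqrt k := by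
      have hZk : 1 ≤ (Z * k) ^ 2 := by
        have : 1 ≤ Z * k := by nlinarith
        nlinarith
      calc Real.log (2 + 1731 * (Z * k) ^ 2) ≤ Real.log (1733 * (Z * k) ^ 2) :=
            Real.log_le_log (by positivity) (by linarith)
        _ = Real.log 1733 + 2 * (Real.log Z + Real.log k) := by
            rw [Real.log_mul (by norm_num) (by positivity), Real.log_pow,
              Real.log_mul (by positivity) (by positivity)]
            push_cast; ring
        _ ≤ _ := by
            have : Real.log 1733 ≤ 8 := by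
              rw [Real.log_le_iff_le_exp (by norm_num)]
              have h3 : (2.7 : ℝ) ^ 8 ≤ Real.exp 1 ^ 8 :=
                pow_le_pow_left₀ (by norm_num) (by have := Real.exp_one_gt_d9; linarith) 8
              rw [← Real.exp_nat_mul] at h3
              have h4 : (1733 : ℝ) ≤ 2.7 ^ 8 := by norm_num
              have h5 : ((8 : ℕ) : ℝ) * 1 = 8 := by norm_num
              rw [h5] at h3
              linarith
            linarith
    have h3 : C * Real.log (2 + 1731 * (Z * k) ^ 2) ≤ C * (8 + 2 * Real.log Z + 4 * Real.sqrt k) :=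
      mul_le_mul_of_nonneg_left h2 hC
    have h4 : C * (8 + 2 * Real.log Z) ≤ k / 2 := by
      have : C * (8 + 2 * Real.log Z) ≤ 14 * C * Real.log Z := by nlinarith
      have h5 : 28 * C * Real.log Z ≤ C2 * Real.log Z := by
        apply mul_le_mul_of_nonneg_right _ (by linarith)
        rw [hC2]; nlinarith [sq_nonneg C]
      linarith
    have h5 : 8 * C ≤ Real.sqrt k := by
      apply Real.le_sqrt_of_sq_le
      have h6 : 93 * C ^ 2 * 0.69 ≤ C2 * Real.log Z := by
        apply mul_le_mul _ hlZ.le (by norm_num) hC2'.le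
        rw [hC2]; linarith
      nlinarith [sq_nonneg C]
    nlinarith [Real.sqrt_nonneg (k : ℝ)]

variable {G : Type} [AddCommGroup G] [Fintype G]

/-- periods of a sum -/
theorem nm_sum {r : ℕ} (hr : 0 < r) (F : G → ℝ) {ι : Type*} (s : Finset ι) (u : ι → G) {B : ℝ}
    (h : ∀ i ∈ s, nm r (fun x => F (x + u i) - F x) ≤ B) :
    nm r (fun x => F (x + ∑ i ∈ s, u i) - F x) ≤ s.card * B := by
  induction s using Finset.induction_on with
  | empty =>
    have hr1 : (0 : ℝ) < r := by exact_mod_cast hr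
    simp only [sum_empty, add_zero, sub_self, card_empty, Nat.cast_zero, zero_mul]
    unfold nm
    have : ∑ x : G, |(0 : ℝ)| ^ (2 * r) = 0 := by
      refine sum_eq_zero fun x _ => ?_
      rw [abs_zero]
      exact zero_pow (by omega)
    rw [this, Real.zero_rpow (by positivity)]
  | insert a s ha ih =>
    have h1 := ih fun i hi => h i (mem_insert_of_mem hi)
    have h2 := h a (mem_insert_self a s)
    rw [sum_insert ha, card_insert_of_notMem ha]
    have e : (fun x => F (x + (u a + ∑ i ∈ s, u i)) - F x) =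
        fun x => (fun x => F (x + u a) - F x) (x + ∑ i ∈ s, u i) + (fun x => F (x + ∑ i ∈ s, u i) - F x) x := by
      funext x
      have : x + (u a + ∑ i ∈ s, u i) = x + ∑ i ∈ s, u i + u a := by abel
      simp only [this]
      ring
    rw [e]
    refine (nm_add hr _ _).trans ?_
    rw [nm_shift r (fun x => F (x + u a) - F x) (∑ i ∈ s, u i)]
    push_cast
    linarith

omit [AddCommGroup G] in
/-- test against `A` -/
theorem test {A : Finset G} (hA : A.Nonempty) {r : ℕ} (hr : 0 < r) (g : G → ℝ) {η : ℝ} (hη : 0 ≤ η)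
    (hL : Real.log (Fintype.card G / A.card) ≤ 2 * r)
    (h : nm r g ≤ η / 3 * (Fintype.card G : ℝ) ^ (1 / (2 * r : ℝ))) :
    ∑ a ∈ A, |g a| ≤ η * A.card := by
  have hr1 : (0 : ℝ) < r := by exact_mod_cast hr
  have hG : (0 : ℝ) < Fintype.card G := by
    obtain ⟨a, -⟩ := hA
    exact_mod_cast Fintype.card_pos_iff.2 ⟨a⟩
  have hc : (0 : ℝ) < A.card := Nat.cast_pos.2 hA.card_pos
  have h1 : ∑ x, |g x| ^ (2 * r) ≤ (η / 3) ^ (2 * r) * Fintype.card G := by
    unfold nm at h
    have h0 : 0 ≤ ∑ x, |g x| ^ (2 * r) := sum_nonneg fun _ _ => by positivity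
    have h2 := pow_le_pow_left₀ (Real.rpow_nonneg h0 _) h (2 * r)
    rw [mul_pow, ← Real.rpow_natCast, ← Real.rpow_mul h0,
      ← Real.rpow_natCast ((Fintype.card G : ℝ) ^ (1 / (2 * r : ℝ))), ← Real.rpow_mul hG.le] at h2
    have e : (1 / (2 * r : ℝ)) * ((2 * r : ℕ) : ℝ) = 1 := by
      push_cast
      field_simp
    rw [e, Real.rpow_one, Real.rpow_one] at h2
    exact h2
  have h2 : (∑ a ∈ A, |g a|) ^ (2 * r) ≤ (A.card : ℝ) ^ (2 * r - 1) * ∑ a ∈ A, |g a| ^ (2 * r) := by
    have := pow_sum_div_card_le_sum_pow (s := A) (f := fun a => |g a|) (fun _ _ => abs_nonneg _) (2 * r - 1)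
    have e : 2 * r - 1 + 1 = 2 * r := by omega
    rw [e, div_le_iff₀ (by positivity)] at this
    linarith [mul_comm (∑ a ∈ A, |g a| ^ (2 * r)) ((A.card : ℝ) ^ (2 * r - 1))]
  have h3 : ∑ a ∈ A, |g a| ^ (2 * r) ≤ ∑ x, |g x| ^ (2 * r) :=
    sum_le_sum_of_subset_of_nonneg (subset_univ _) (fun _ _ _ => by positivity)
  have h4 : (Fintype.card G : ℝ) ≤ A.card * Real.exp 1 ^ (2 * r) := by
    rw [← Real.exp_nat_mul]
    have h5 := Real.exp_le_exp.2 hL
    rw [Real.exp_log (by positivity), div_le_iff₀ hc] at h5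
    push_cast
    rw [mul_one]
    linarith
  have h5 : (∑ a ∈ A, |g a|) ^ (2 * r) ≤ (η * A.card) ^ (2 * r) := by
    calc (∑ a ∈ A, |g a|) ^ (2 * r) ≤ (A.card : ℝ) ^ (2 * r - 1) * ∑ a ∈ A, |g a| ^ (2 * r) := h2
      _ ≤ (A.card : ℝ) ^ (2 * r - 1) * ((η / 3) ^ (2 * r) * (A.card * Real.exp 1 ^ (2 * r))) := by
          apply mul_le_mul_of_nonneg_left _ (by positivity)
          refine (h3.trans h1).trans ?_
          exact mul_le_mul_of_nonneg_left h4 (by positivity)
      _ = (η * (Real.exp 1 / 3)) ^ (2 * r) * ((A.card : ℝ) ^ (2 * r - 1) * A.card) := by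
          rw [mul_pow, div_pow, div_pow]; ring
      _ = (η * (Real.exp 1 / 3)) ^ (2 * r) * (A.card : ℝ) ^ (2 * r) := by
          rw [← pow_succ]
          congr 2
          omega
      _ ≤ η ^ (2 * r) * (A.card : ℝ) ^ (2 * r) := by
          apply mul_le_mul_of_nonneg_right _ (by positivity)
          apply pow_le_pow_left₀ (by positivity)
          have := Real.exp_one_lt_d9
          have h6 : Real.exp 1 / 3 ≤ 1 := by linarith
          nlinarith
      _ = _ := by rw [mul_pow]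
  exact le_of_pow_le_pow_left₀ (by omega) (by positivity) h5

/-- A subgroup of almost periods of `F = avA A f`, tested on `B`: every `y ∈ H` moves the average of `F` over `B` by
at most `η`, in `L^1 (B)`. -/
theorem almost_periods : ∃ C : ℝ, 0 < C ∧ ∀ (G : Type) [AddCommGroup G] [Fintype G], (∀ x : G, x + x = 0) →
    ∀ A B : Finset G, A.Nonempty → B.Nonempty → ∀ f : G → ℝ, (∀ x, 0 ≤ f x ∧ f x ≤ 1) →
    ∀ η : ℝ, 0 < η → η ≤ 1 →
      ∃ H : AddSubgroup G, Real.log (H.index : ℝ) ≤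
          C / η ^ 2 * Real.log (2 * Fintype.card G / A.card) * Real.log (2 * Fintype.card G / B.card) *
            Real.log (2 + (Real.log (2 * Fintype.card G / A.card) +
              Real.log (2 * Fintype.card G / B.card)) / η) ^ 2 ∧
        ∀ y ∈ H, ∑ b ∈ B, |avA A f (b + y) - avA A f b| ≤ η * B.card := by
  obtain ⟨C0, hC0⟩ := PB.loglog_grp (c := 1 / 2) (by norm_num) (by norm_num)
  obtain ⟨C1, hC1, hk⟩ := num_k (C := max C0 0) (le_max_right _ _)
  refine ⟨3462 * C1 ^ 2, by positivity, ?_⟩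
  intro G _ _ h2 A B hA hB f hf01 η hη hη1
  have hG : (0 : ℝ) < Fintype.card G := Nat.cast_pos.2 Fintype.card_pos
  have hc : (0 : ℝ) < A.card := Nat.cast_pos.2 hA.card_pos
  have hcB : (0 : ℝ) < B.card := Nat.cast_pos.2 hB.card_pos
  have hlog2 : 0.69 < Real.log 2 := by have := Real.log_two_gt_d9; linarith
  obtain ⟨K, hK⟩ : ∃ K, K = Real.log (2 * Fintype.card G / A.card) := ⟨_, rfl⟩
  obtain ⟨M, hM⟩ : ∃ M, M = Real.log (2 * Fintype.card G / B.card) := ⟨_, rfl⟩
  rw [← hK, ← hM]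
  have hKL : Real.log (Fintype.card G / A.card) = K - Real.log 2 := by
    rw [hK, mul_div_assoc, Real.log_mul (by norm_num) (by positivity)]; ring
  have hML : Real.log (Fintype.card G / B.card) = M - Real.log 2 := by
    rw [hM, mul_div_assoc, Real.log_mul (by norm_num) (by positivity)]; ring
  have hK0 : Real.log 2 ≤ K := by
    have : 0 ≤ Real.log (Fintype.card G / A.card) := by
      apply Real.log_nonneg
      rw [le_div_iff₀ hc, one_mul]
      exact_mod_cast card_le_univ A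
    linarith
  have hM0 : Real.log 2 ≤ M := by
    have : 0 ≤ Real.log (Fintype.card G / B.card) := by
      apply Real.log_nonneg
      rw [le_div_iff₀ hcB, one_mul]
      exact_mod_cast card_le_univ B
    linarith
  have hK1 : 0.69 < K := by linarith
  have hM1 : 0.69 < M := by linarith
  obtain ⟨Z, hZ⟩ : ∃ Z, Z = 2 + (K + M) / η := ⟨_, rfl⟩
  have hKMη : 0 < (K + M) / η := div_pos (by linarith) hη
  have hZ2 : 2 ≤ Z := by rw [hZ]; linarith
  obtain ⟨k, hk1, hk2, hk3⟩ := hk Z hZ2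
  have hk0 : (1 : ℝ) ≤ k := by exact_mod_cast hk1
  obtain ⟨ε, hε⟩ : ∃ ε, ε = η / (6 * k) := ⟨_, rfl⟩
  have hε0 : 0 < ε := by rw [hε]; positivity
  obtain ⟨r, hr⟩ : ∃ r : ℕ, r = ⌈M / 2⌉₊ := ⟨_, rfl⟩
  have hr1 : M / 2 ≤ r := by rw [hr]; exact Nat.le_ceil _
  have hr2 : (r : ℝ) < M / 2 + 1 := by rw [hr]; exact Nat.ceil_lt_add_one (by linarith)
  have hr0 : 0 < r := by
    have : (0 : ℝ) < r := by linarith
    exact_mod_cast this
  have hr3 : (r : ℝ) ≤ 2 * M := by linarith
  obtain ⟨m, hm⟩ : ∃ m : ℕ, m = ⌈24 * r / ε ^ 2⌉₊ := ⟨_, rfl⟩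
  have hm1 : 24 * r / ε ^ 2 ≤ m := by rw [hm]; exact Nat.le_ceil _
  have hm2 : (m : ℝ) < 24 * r / ε ^ 2 + 1 := by rw [hm]; exact Nat.ceil_lt_add_one (by positivity)
  have hm0 : 0 < m := by
    have : (0 : ℝ) < m := lt_of_lt_of_le (by positivity) hm1
    exact_mod_cast this
  have hm01 : (1 : ℝ) ≤ m := by exact_mod_cast hm0
  have hmε : 24 * (r : ℝ) ≤ m * ε ^ 2 := by
    rwa [div_le_iff₀ (by positivity)] at hm1
  obtain ⟨T, hT1, hT2⟩ := periods h2 hA hf01 hm0 hr0 hε0 hmε
  have hTc : (0 : ℝ) < T.card := by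
    have h1 : 0 < ((A.card : ℝ) / Fintype.card G) ^ m / 2 := by positivity
    have h3 := lt_of_lt_of_le h1 hT1
    by_contra h4
    have h5 : (T.card : ℝ) = 0 := le_antisymm (not_lt.1 h4) (Nat.cast_nonneg _)
    rw [h5, zero_div] at h3
    exact lt_irrefl _ h3
  have hTne : T.Nonempty := by
    rw [← card_pos]
    exact_mod_cast hTc
  have hTL : Real.log (Fintype.card G / T.card) ≤ 1731 * (K * M / η ^ 2 * k ^ 2) := by
    have h1 : Real.log (Fintype.card G / T.card) ≤ m * K := by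
      have h3 : Real.log (((A.card : ℝ) / Fintype.card G) ^ m / 2) ≤ Real.log (T.card / Fintype.card G) :=
        Real.log_le_log (by positivity) hT1
      rw [Real.log_div (by positivity) (by norm_num), Real.log_pow] at h3
      have h4 : Real.log ((A.card : ℝ) / Fintype.card G) = - (K - Real.log 2) := by
        rw [← hKL, ← Real.log_inv, inv_div]
      have h5 : Real.log ((T.card : ℝ) / Fintype.card G) = - Real.log (Fintype.card G / T.card) := by
        rw [← Real.log_inv, inv_div]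
      rw [h4, h5] at h3
      nlinarith
    have h3 : 24 * r / ε ^ 2 ≤ 1728 * (M / η ^ 2) * k ^ 2 := by
      have e : 24 * r / ε ^ 2 = 864 * (r / η ^ 2) * k ^ 2 := by
        rw [hε]
        field_simp
        ring
      rw [e]
      have : (r : ℝ) / η ^ 2 ≤ 2 * M / η ^ 2 := div_le_div_of_nonneg_right hr3 (by positivity)
      have h6 : 864 * (r / η ^ 2) * k ^ 2 ≤ 864 * (2 * M / η ^ 2) * k ^ 2 := by gcongr
      calc _ ≤ _ := h6
        _ = _ := by ring
    have h4 : 1 ≤ (k : ℝ) ^ 2 / η ^ 2 := by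
      rw [le_div_iff₀ (by positivity)]
      nlinarith
    have h8 : (m : ℝ) * K ≤ (24 * r / ε ^ 2 + 1) * K := mul_le_mul_of_nonneg_right hm2.le (by linarith)
    have h9 : (24 * r / ε ^ 2 + 1) * K ≤ (1728 * (M / η ^ 2) * k ^ 2 + 1) * K := by
      apply mul_le_mul_of_nonneg_right _ (by linarith)
      linarith
    have h10 : K ≤ 3 * (K * M * ((k : ℝ) ^ 2 / η ^ 2)) := by
      have h11 : K ≤ 3 * (K * M) := by nlinarith
      have h12 : K * M * 1 ≤ K * M * ((k : ℝ) ^ 2 / η ^ 2) :=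
        mul_le_mul_of_nonneg_left h4 (by nlinarith)
      linarith
    have h13 : K * M / η ^ 2 * (k : ℝ) ^ 2 = K * M * ((k : ℝ) ^ 2 / η ^ 2) := by ring
    have h14 : (1728 * (M / η ^ 2) * (k : ℝ) ^ 2 + 1) * K = 1728 * (K * M * ((k : ℝ) ^ 2 / η ^ 2)) + K := by ring
    rw [h13]
    linarith
  have hTL0 : 0 ≤ Real.log (Fintype.card G / T.card) := by
    apply Real.log_nonneg
    rw [le_div_iff₀ hTc, one_mul]
    exact_mod_cast card_le_univ T
  have hkk : C0 * Real.log (2 + Real.log (Fintype.card G / T.card)) ≤ k := by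
    refine le_trans ?_ hk3
    have h3 : 0 ≤ Real.log (2 + Real.log (Fintype.card G / T.card)) := Real.log_nonneg (by linarith)
    refine mul_le_mul (le_max_left _ _) (Real.log_le_log (by linarith) ?_) h3 (le_max_right _ _)
    have h4 : K * M / η ^ 2 * k ^ 2 ≤ (Z * k) ^ 2 := by
      rw [mul_pow]
      apply mul_le_mul_of_nonneg_right _ (by positivity)
      have h5 : K * M ≤ (K + M) ^ 2 := by nlinarith
      calc K * M / η ^ 2 ≤ (K + M) ^ 2 / η ^ 2 := div_le_div_of_nonneg_right h5 (by positivity)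
        _ = ((K + M) / η) ^ 2 := by rw [div_pow]
        _ ≤ Z ^ 2 := by
            apply pow_le_pow_left₀ hKMη.le
            rw [hZ]; linarith
    linarith
  obtain ⟨x0, H, hH1, hH2⟩ := hC0 G h2 T hTne k hkk
  refine ⟨H, ?_, ?_⟩
  · have hidx : (0 : ℝ) < H.index := by
      exact_mod_cast Nat.pos_of_ne_zero H.index_ne_zero_of_finite
    have h3 : 1 / 2 * Real.log (H.index : ℝ) ≤ Real.log (Fintype.card G / T.card) := by
      rw [← Real.log_rpow hidx]
      exact Real.log_le_log (Real.rpow_pos_of_pos hidx _) hH1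
    have h4 : Real.log (H.index : ℝ) ≤ 3462 * (K * M / η ^ 2 * k ^ 2) := by linarith
    refine h4.trans ?_
    have h5 : (k : ℝ) ^ 2 ≤ (C1 * Real.log Z) ^ 2 := pow_le_pow_left₀ (by linarith) hk2 2
    rw [← hZ]
    have h6 : 0 ≤ K * M / η ^ 2 := div_nonneg (by nlinarith) (by positivity)
    calc 3462 * (K * M / η ^ 2 * (k : ℝ) ^ 2) ≤ 3462 * (K * M / η ^ 2 * (C1 * Real.log Z) ^ 2) := by gcongr
      _ = _ := by ring
  · intro y hy
    have hN : nm r (fun x => avA A f (x + y) - avA A f x) ≤ η / 3 * (Fintype.card G : ℝ) ^ (1 / (2 * r : ℝ)) := by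
      obtain ⟨u, hu, hus⟩ := hH2 y hy
      obtain ⟨v, hv, hvs⟩ := hH2 0 H.zero_mem
      have hy' : y = ∑ i, (u i + v i) := by
        rw [sum_add_distrib, ← hus, ← hvs]
        calc y = y + (x0 + x0) := by rw [h2, add_zero]
          _ = _ := by abel
      rw [hy']
      refine (nm_sum hr0 (avA A f) univ (fun i => u i + v i)
        (fun i _ => hT2 (u i) (hu i) (v i) (hv i))).trans (le_of_eq ?_)
      rw [card_univ, Fintype.card_fin, hε]
      field_simp
      ring
    exact test hB hr0 _ hη.le (by rw [hML]; linarith) hN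

/-- Main theorem for groups: the uniform statement about pairs. -/
theorem main_pairs : ∃ C : ℝ, 0 < C ∧ ∀ (G : Type) [AddCommGroup G] [Fintype G], (∀ x : G, x + x = 0) →
    ∀ A B : Finset G, A.Nonempty → B.Nonempty → ∀ η : ℝ, 0 < η → η ≤ 1 →
      ∃ H : AddSubgroup G, Real.log (H.index : ℝ) ≤
          C / η ^ 2 * Real.log (2 * Fintype.card G / A.card) * Real.log (2 * Fintype.card G / B.card) *
            Real.log (2 + (Real.log (2 * Fintype.card G / A.card) +
              Real.log (2 * Fintype.card G / B.card)) / η) ^ 2 ∧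
        ∀ y ∈ H, ∑ b ∈ B, (((A.filter fun a => ¬ (a + b + y ∈ A + B)).card : ℝ)) ≤ η * (A.card * B.card) := by
  obtain ⟨C, hC, hmain⟩ := almost_periods
  refine ⟨C, hC, ?_⟩
  intro G _ _ h2 A B hA hB η hη hη1
  have hc : (0 : ℝ) < A.card := Nat.cast_pos.2 hA.card_pos
  obtain ⟨f, hf⟩ : ∃ f : G → ℝ, f = fun x => if x ∈ A + B then 1 else 0 := ⟨_, rfl⟩
  have hf01 : ∀ x, 0 ≤ f x ∧ f x ≤ 1 := by
    intro x
    rw [hf]
    simp only
    split_ifs <;> norm_num
  obtain ⟨H, hH1, hH2⟩ := hmain G h2 A B hA hB f hf01 η hη hη1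
  refine ⟨H, hH1, fun y hy => ?_⟩
  have ht := hH2 y hy
  have hFv : ∀ x : G, avA A f x = ((A.filter fun a => x + a ∈ A + B).card : ℝ) / A.card := by
    intro x
    unfold avA
    rw [hf, card_filter]
    push_cast
    rfl
  have hF : ∀ b ∈ B, avA A f b = 1 := by
    intro b hb
    rw [hFv, div_eq_one_iff_eq hc.ne']
    congr 2
    exact filter_true_of_mem fun a ha => by rw [add_comm b a]; exact add_mem_add ha hb
  have hsum : ∀ b ∈ B, ((A.filter fun a => ¬ (a + b + y ∈ A + B)).card : ℝ) ≤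
      A.card * |avA A f (b + y) - avA A f b| := by
    intro b hb
    rw [hF b hb, hFv]
    have e1 : (A.filter fun a => b + y + a ∈ A + B) = A.filter fun a => a + b + y ∈ A + B := by
      refine filter_congr fun a _ => ?_
      have : b + y + a = a + b + y := by abel
      rw [this]
    rw [e1]
    have e2 : ((A.filter fun a => a + b + y ∈ A + B).card : ℝ) +
        (A.filter fun a => ¬ (a + b + y ∈ A + B)).card = A.card := by
      exact_mod_cast card_filter_add_card_filter_not (s := A) (fun a => a + b + y ∈ A + B)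
    have e3 : (A.card : ℝ) * (1 - ((A.filter fun a => a + b + y ∈ A + B).card : ℝ) / A.card) =
        (A.filter fun a => ¬ (a + b + y ∈ A + B)).card := by
      field_simp
      linarith
    rw [← e3]
    apply mul_le_mul_of_nonneg_left _ hc.le
    rw [abs_sub_comm]
    exact le_abs_self _
  calc ∑ b ∈ B, ((A.filter fun a => ¬ (a + b + y ∈ A + B)).card : ℝ)
      ≤ ∑ b ∈ B, A.card * |avA A f (b + y) - avA A f b| := sum_le_sum hsum
    _ = A.card * ∑ b ∈ B, |avA A f (b + y) - avA A f b| := by rw [mul_sum]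
    _ ≤ A.card * (η * B.card) := mul_le_mul_of_nonneg_left ht hc.le
    _ = η * (A.card * B.card) := by ring

end

end PH
end
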