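import Pool.Agent.Lib.MP_c6cae0_co.h37.CS3

/-!
MP_c6cae0_co, 4A with codimension `O(L^2 log^2 L)`: the final statement.
-/

set_option autoImplicit false

namespace PH

open Finset
open scoped Pointwise Classical

/-- the statement in `F_2^n` -/
theorem four_main : ∃ C : ℝ, 0 < C ∧ ∀ (n : ℕ) (α β η : ℝ), 0 < α → 0 < β → 0 < η → η < 1 →
    ∀ A B : Finset (Fin n → ZMod 2), α * (2 : ℝ) ^ n ≤ A.card → β * (2 : ℝ) ^ n ≤ B.card →
      ∃ W : Submodule (ZMod 2) (Fin n → ZMod 2),
        (n : ℝ) - Module.finrank (ZMod 2) W ≤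
          C / η ^ 2 * Real.log (2 / α) * Real.log (2 / β) *
            Real.log (2 + (Real.log (2 / α) + Real.log (2 / β)) / η) ^ 2 ∧
        (∀ w ∈ W, w ∈ A + A + B + B) ∧
        (∀ w ∈ W, (1 - η) * (A.card * B.card) ≤
          ((A ×ˢ B).filter fun p => p.1 + p.2 + w ∈ A + B).card) ∧
        ∃ a ∈ A, ∃ b ∈ B, (1 - η) * (Nat.card W : ℝ) ≤
          ((univ.filter fun x : Fin n → ZMod 2 => x ∈ W ∧ a + b + x ∈ A + B).card : ℝ) := by
  obtain ⟨C, hC, hmain⟩ := main_pairs
  refine ⟨C / Real.log 2, div_pos hC (Real.log_pos (by norm_num)), ?_⟩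
  intro n α β η hα hβ hη hη1 A B hAα hBβ
  have h2 : ∀ x : Fin n → ZMod 2, x + x = 0 := by
    intro x
    funext i
    have : ∀ z : ZMod 2, z + z = 0 := by decide
    exact this (x i)
  have hA0 : (0 : ℝ) < A.card := lt_of_lt_of_le (by positivity) hAα
  have hB0 : (0 : ℝ) < B.card := lt_of_lt_of_le (by positivity) hBβ
  have hA : A.Nonempty := by
    rw [← card_pos]
    exact_mod_cast hA0
  have hB : B.Nonempty := by
    rw [← card_pos]
    exact_mod_cast hB0
  have hcard : (Fintype.card (Fin n → ZMod 2) : ℝ) = 2 ^ n := by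
    rw [Fintype.card_fun, ZMod.card, Fintype.card_fin]
    push_cast
    rfl
  obtain ⟨H, hH1, hH2'⟩ := hmain (Fin n → ZMod 2) h2 A B hA hB η hη hη1.le
  have hH2 : ∀ y ∈ H, ∑ b ∈ B, (((A.filter fun a => ¬ (a + b + y ∈ A + B)).card : ℝ)) ≤
      η * (A.card * B.card) := by
    intro y hy
    have h := hH2' y hy
    refine le_trans (le_of_eq ?_) h
    refine sum_congr rfl fun b _ => ?_
    congr 2
    ext a
    simp only [mem_filter, Finset.mem_add]
  obtain ⟨W, hW⟩ : ∃ W, W = AddSubgroup.toZModSubmodule 2 H := ⟨_, rfl⟩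
  have hWH : ∀ w, w ∈ W ↔ w ∈ H := by
    intro w
    rw [hW]
    simp
  have hlog2 : 0 < Real.log 2 := Real.log_pos (by norm_num)
  -- cardinality facts
  have hcW : Nat.card W = 2 ^ Module.finrank (ZMod 2) W := by
    have := Module.natCard_eq_pow_finrank (K := ZMod 2) (V := W)
    rwa [Nat.card_zmod] at this
  have hcH : Nat.card H = Nat.card W := by rw [hW]; rfl
  have hdim : Real.log (H.index : ℝ) + Module.finrank (ZMod 2) W * Real.log 2 = n * Real.log 2 := by
    have hmul := H.index_mul_card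
    have hGc : Nat.card (Fin n → ZMod 2) = 2 ^ n := by
      rw [Nat.card_eq_fintype_card, Fintype.card_fun, ZMod.card, Fintype.card_fin]
    rw [hcH, hcW, hGc] at hmul
    have hidx : (0 : ℝ) < H.index := by
      exact_mod_cast Nat.pos_of_ne_zero H.index_ne_zero_of_finite
    have h4 : (H.index : ℝ) * 2 ^ Module.finrank (ZMod 2) W = 2 ^ n := by exact_mod_cast hmul
    have h5 := congrArg Real.log h4
    rwa [Real.log_mul hidx.ne' (by positivity), Real.log_pow, Real.log_pow] at h5
  -- pairs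
  have hpairs : ∀ w ∈ W, (((A ×ˢ B).filter fun p => ¬ (p.1 + p.2 + w ∈ A + B)).card : ℝ) ≤
      η * (A.card * B.card) := by
    intro w hw
    refine le_trans (le_of_eq ?_) (hH2 w ((hWH w).1 hw))
    rw [card_filter, sum_product_right]
    push_cast
    refine sum_congr rfl fun b _ => ?_
    rw [card_filter]
    push_cast
    rfl
  have hsplit : ∀ w, (((A ×ˢ B).filter fun p => p.1 + p.2 + w ∈ A + B).card : ℝ) +
      ((A ×ˢ B).filter fun p => ¬ (p.1 + p.2 + w ∈ A + B)).card = A.card * B.card := by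
    intro w
    have := card_filter_add_card_filter_not (s := A ×ˢ B) (fun p => p.1 + p.2 + w ∈ A + B)
    rw [card_product] at this
    exact_mod_cast this
  have hpairs' : ∀ w ∈ W, (1 - η) * (A.card * B.card) ≤
      (((A ×ˢ B).filter fun p => p.1 + p.2 + w ∈ A + B).card : ℝ) := by
    intro w hw
    have := hpairs w hw
    have := hsplit w
    linarith
  refine ⟨W, ?_, ?_, hpairs', ?_⟩
  · have hr : ∀ (S : Finset (Fin n → ZMod 2)) (γ : ℝ), 0 < γ → γ * (2 : ℝ) ^ n ≤ S.card →
        (0 : ℝ) < S.card → Real.log (2 * Fintype.card (Fin n → ZMod 2) / S.card) ≤ Real.log (2 / γ) ∧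
          0 ≤ Real.log (2 * Fintype.card (Fin n → ZMod 2) / S.card) := by
      intro S γ hγ hS hS0
      constructor
      · apply Real.log_le_log (by positivity)
        rw [hcard, div_le_div_iff₀ hS0 hγ]
        linarith
      · apply Real.log_nonneg
        rw [le_div_iff₀ hS0]
        have : (S.card : ℝ) ≤ Fintype.card (Fin n → ZMod 2) := by exact_mod_cast card_le_univ S
        linarith
    obtain ⟨hK1, hK0⟩ := hr A α hα hAα hA0
    obtain ⟨hM1, hM0⟩ := hr B β hβ hBβ hB0
    obtain ⟨K, hK⟩ : ∃ K, K = Real.log (2 * Fintype.card (Fin n → ZMod 2) / A.card) := ⟨_, rfl⟩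
    obtain ⟨M, hM⟩ : ∃ M, M = Real.log (2 * Fintype.card (Fin n → ZMod 2) / B.card) := ⟨_, rfl⟩
    rw [← hK] at hK1 hK0
    rw [← hM] at hM1 hM0
    rw [← hK, ← hM] at hH1
    have h3 : Real.log (H.index : ℝ) ≤ C / η ^ 2 * Real.log (2 / α) * Real.log (2 / β) *
        Real.log (2 + (Real.log (2 / α) + Real.log (2 / β)) / η) ^ 2 := by
      refine hH1.trans ?_
      have h4 : 0 ≤ (K + M) / η := div_nonneg (by linarith) hη.le
      have h5 : (K + M) / η ≤ (Real.log (2 / α) + Real.log (2 / β)) / η :=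
        div_le_div_of_nonneg_right (by linarith) hη.le
      have h6 : Real.log (2 + (K + M) / η) ≤ Real.log (2 + (Real.log (2 / α) + Real.log (2 / β)) / η) :=
        Real.log_le_log (by linarith) (by linarith)
      have h7 : 0 ≤ Real.log (2 + (K + M) / η) := Real.log_nonneg (by linarith)
      have hα0 : 0 ≤ Real.log (2 / α) := hK0.trans hK1
      have hβ0 : 0 ≤ Real.log (2 / β) := hM0.trans hM1
      have hCη : 0 ≤ C / η ^ 2 := by positivity
      gcongr
    have h4 : ((n : ℝ) - Module.finrank (ZMod 2) W) * Real.log 2 = Real.log (H.index : ℝ) := by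
      linarith
    have h5 : (n : ℝ) - Module.finrank (ZMod 2) W = Real.log (H.index : ℝ) / Real.log 2 := by
      rw [eq_div_iff hlog2.ne']
      exact h4
    rw [h5, div_le_iff₀ hlog2]
    refine h3.trans (le_of_eq ?_)
    field_simp
  · intro w hw
    have h3 := hpairs' w hw
    have h4 : (0 : ℝ) < ((A ×ˢ B).filter fun p => p.1 + p.2 + w ∈ A + B).card :=
      lt_of_lt_of_le (mul_pos (by linarith) (mul_pos hA0 hB0)) h3
    have h5 : ((A ×ˢ B).filter fun p => p.1 + p.2 + w ∈ A + B).Nonempty := by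
      rw [← card_pos]
      exact_mod_cast h4
    obtain ⟨p, hp⟩ := h5
    rw [mem_filter, mem_product] at hp
    obtain ⟨⟨hpA, hpB⟩, hpw⟩ := hp
    obtain ⟨a', ha', b', hb', hab⟩ := mem_add.1 hpw
    have h6 : w = a' + p.1 + p.2 + b' := by
      calc w = (p.1 + p.1) + (p.2 + p.2) + w := by rw [h2, h2]; simp
        _ = (p.1 + p.2 + w) + p.1 + p.2 := by abel
        _ = (a' + b') + p.1 + p.2 := by rw [hab]
        _ = _ := by abel
    rw [h6]
    exact add_mem_add (add_mem_add (add_mem_add ha' hpA) hpB) hb'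
  · -- averaging
    by_contra hcon
    push Not at hcon
    have hWfin : (Nat.card W : ℝ) = ((univ.filter fun x : Fin n → ZMod 2 => x ∈ W).card : ℝ) := by
      rw [Nat.card_eq_fintype_card, Fintype.card_subtype]
    have hWpos : (0 : ℝ) < Nat.card W := by exact_mod_cast Nat.card_pos
    have h3 : ∑ w ∈ univ.filter (fun x : Fin n → ZMod 2 => x ∈ W), (1 - η) * ((A.card : ℝ) * B.card) ≤
        ∑ w ∈ univ.filter (fun x : Fin n → ZMod 2 => x ∈ W),
          (((A ×ˢ B).filter fun p => p.1 + p.2 + w ∈ A + B).card : ℝ) :=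
      sum_le_sum fun w hw => hpairs' w (mem_filter.1 hw).2
    rw [sum_const, nsmul_eq_mul, ← hWfin] at h3
    have h4 : ∑ w ∈ univ.filter (fun x : Fin n → ZMod 2 => x ∈ W),
          (((A ×ˢ B).filter fun p => p.1 + p.2 + w ∈ A + B).card : ℝ) =
        ∑ p ∈ A ×ˢ B, ((univ.filter fun x : Fin n → ZMod 2 => x ∈ W ∧ p.1 + p.2 + x ∈ A + B).card : ℝ) := by
      have e1 : ∀ w : Fin n → ZMod 2, (((A ×ˢ B).filter fun p => p.1 + p.2 + w ∈ A + B).card : ℝ) =
          ∑ p ∈ A ×ˢ B, if p.1 + p.2 + w ∈ A + B then (1 : ℝ) else 0 := by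
        intro w
        rw [card_filter]
        push_cast
        rfl
      simp_rw [e1]
      rw [sum_comm]
      refine sum_congr rfl fun p _ => ?_
      rw [← filter_filter, card_filter]
      push_cast
      rfl
    rw [h4] at h3
    have h5 : ∑ p ∈ A ×ˢ B, ((univ.filter fun x : Fin n → ZMod 2 => x ∈ W ∧ p.1 + p.2 + x ∈ A + B).card : ℝ) <
        ∑ p ∈ A ×ˢ B, (1 - η) * (Nat.card W : ℝ) := by
      apply sum_lt_sum_of_nonempty (hA.product hB)
      intro p hp
      rw [mem_product] at hp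
      exact hcon p.1 hp.1 p.2 hp.2
    rw [sum_const, nsmul_eq_mul, card_product] at h5
    push_cast at h5
    have h6 : (Nat.card W : ℝ) * ((1 - η) * ((A.card : ℝ) * B.card)) =
        (A.card : ℝ) * B.card * ((1 - η) * (Nat.card W : ℝ)) := by ring
    linarith

end PH
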